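import Pool.Agent.Run7.h484.K.Fin

/-! For every `n` one group acts geometrically on `n` proper injective metric spaces of finite
combinatorial dimension with pairwise non-homeomorphic boundaries. -/

open Run7.h484 Run7.h484.K in
/-- For every `n` there are a group `G` and admissible spaces `X 0, …, X (n-1)` with geometric
actions of `G`, such that each `X i` has exactly one convex bicombing (which is consistent and
reversible), and for `i ≠ j` the boundaries of `X i` and `X j` with respect to their convex
bicombings are not homeomorphic, whatever the base points. -/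
theorem Pool.Agent.Results.MP_318c20_al.ManyBoundaries.result (n : ℕ) :
    ∃ (G : Type) (_ : Group G) (X : Fin n → Type) (_ : ∀ i, MetricSpace (X i))
      (_ : ∀ i, MulAction G (X i)),
      (∀ i, Admissible (X i)) ∧ (∀ i, IsGeometric G (X i)) ∧
      (∀ i, ∃ σ : X i → X i → ℝ → X i, IsConvexBicombing σ ∧ IsBicombing σ ∧
        ∀ τ : X i → X i → ℝ → X i, IsConvexBicombing τ →
          ∀ x y, ∀ t ∈ Set.Icc (0 : ℝ) 1, τ x y t = σ x y t) ∧
      ∀ i j, i ≠ j → ∀ (σ : X i → X i → ℝ → X i) (τ : X j → X j → ℝ → X j),
        IsConvexBicombing σ → IsConvexBicombing τ → ∀ p q, IsEmpty (Bdry σ p ≃ₜ Bdry τ q) :=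
  many_boundaries n
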